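import Pool.Agent.helper64.QF.Spec

/-!
# Project pq: (MP_b9b9c0_an): module PSC

Positivity on the sphere gives the class.
-/

set_option autoImplicit false

namespace Pool.Agent.helper64.QF

open Metric MeasureTheory Set Filter Topology
open Pool.Agent.helper37.PR

/-- positivity on the sphere implies positivity in the ball -/
theorem PSC_pos {n : ℕ} {h : E n → E n} (ha : AnalyticOnNhd ℂ h univ) (h0 : h 0 = 0)
    (hp : ∀ ζ ∈ sphere (0 : E n) 1, 0 < (inner ℂ ζ (h ζ) : ℂ).re) :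
    ∀ z ∈ ball (0 : E n) 1, z ≠ 0 → 0 < (inner ℂ z (h z) : ℂ).re := by
  intro z hz hz0
  have hd : Differentiable ℂ h := fun x => (ha x (mem_univ x)).differentiableAt
  have hc : Continuous h := hd.continuous
  have hr : 0 < ‖z‖ := norm_pos_iff.mpr hz0
  obtain ⟨e, he⟩ : ∃ e : E n, e = ((‖z‖⁻¹ : ℝ) : ℂ) • z := ⟨_, rfl⟩
  have hne : ‖e‖ = 1 := by
    rw [he, norm_smul, Complex.norm_real, norm_inv, norm_norm, inv_mul_cancel₀ hr.ne']
  have hze : z = ((‖z‖ : ℝ) : ℂ) • e := by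
    rw [he, smul_smul, ← Complex.ofReal_mul, mul_inv_cancel₀ hr.ne', Complex.ofReal_one, one_smul]
  have hcont : Continuous (fun ζ : E n => (inner ℂ ζ (h ζ) : ℂ).re) :=
    Complex.continuous_re.comp (continuous_id.inner hc)
  obtain ⟨x, hx, hmin⟩ := (isCompact_sphere (0 : E n) 1).exists_isMinOn ⟨e, by simpa using hne⟩
    hcont.continuousOn
  have hδ0 : 0 < (inner ℂ x (h x) : ℂ).re := hp x hx
  obtain ⟨δ, hδ⟩ : ∃ δ : ℝ, δ = (inner ℂ x (h x) : ℂ).re := ⟨_, rfl⟩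
  rw [← hδ] at hδ0
  obtain ⟨g, hgd⟩ : ∃ g : ℂ → ℂ, g = fun ζ => inner ℂ e (h (ζ • e)) := ⟨_, rfl⟩
  have hg : Differentiable ℂ g := by
    rw [hgd]
    have h1 : Differentiable ℂ (fun ζ : ℂ => h (ζ • e)) :=
      hd.comp ((differentiable_id (𝕜 := ℂ)).smul_const e)
    exact (innerSL ℂ e).differentiable.comp h1
  have hg0 : g 0 = 0 := by
    rw [hgd]
    simp [h0]
  have hq : DifferentiableOn ℂ (fun ζ => dslope g 0 ζ - (δ : ℂ)) (ball 0 2) :=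
    ((Complex.differentiableOn_dslope (ball_mem_nhds _ two_pos)).mpr hg.differentiableOn).sub_const _
  have hsl : ∀ ζ : ℂ, ζ ≠ 0 → dslope g 0 ζ = g ζ / ζ := by
    intro ζ hζ
    rw [dslope_of_ne _ hζ, slope_def_field, hg0, sub_zero, sub_zero]
  have hb : ∀ ζ : ℂ, ‖ζ‖ = 1 → 0 ≤ (dslope g 0 ζ - (δ : ℂ)).re := by
    intro ζ hζ
    have hζ0 : ζ ≠ 0 := by
      intro h1
      rw [h1, norm_zero] at hζ
      exact zero_ne_one hζ
    have hcc : ζ * (starRingEnd ℂ) ζ = 1 := by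
      rw [Complex.mul_conj, Complex.normSq_eq_norm_sq, hζ]
      norm_num
    have h1 : (inner ℂ (ζ • e) (h (ζ • e)) : ℂ) = dslope g 0 ζ := by
      rw [hsl ζ hζ0, inner_smul_left, hgd]
      rw [eq_div_iff hζ0]
      linear_combination (inner ℂ e (h (ζ • e)) : ℂ) * hcc
    have h2 : (inner ℂ x (h x) : ℂ).re ≤ (inner ℂ (ζ • e) (h (ζ • e)) : ℂ).re :=
      hmin (by simp [norm_smul, hζ, hne])
    rw [Complex.sub_re, Complex.ofReal_re, ← h1]
    linarith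
  have hz1 : ‖z‖ < 1 := by simpa using hz
  have h3 := re_nonneg_of_sphere one_pos one_lt_two hq hb ((‖z‖ : ℝ) : ℂ) (by
    rw [Complex.norm_real, norm_norm]
    exact hz1.le)
  have hrc : ((‖z‖ : ℝ) : ℂ) ≠ 0 := by exact_mod_cast hr.ne'
  rw [hsl _ hrc] at h3
  have h4 : g ((‖z‖ : ℝ) : ℂ) / ((‖z‖ : ℝ) : ℂ) = (((‖z‖ ^ 2)⁻¹ : ℝ) : ℂ) * inner ℂ z (h z) := by
    have h5 : (inner ℂ z (h z) : ℂ) = ((‖z‖ : ℝ) : ℂ) * g ((‖z‖ : ℝ) : ℂ) := by
      rw [hgd]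
      change (inner ℂ z (h z) : ℂ) = ((‖z‖ : ℝ) : ℂ) * inner ℂ e (h (((‖z‖ : ℝ) : ℂ) • e))
      rw [← hze]
      conv_lhs => rw [hze]
      rw [inner_smul_left, Complex.conj_ofReal, ← hze]
    rw [h5]
    push_cast
    field_simp
  rw [h4, Complex.sub_re, Complex.re_ofReal_mul, Complex.ofReal_re] at h3
  have h6 : 0 < (‖z‖ ^ 2)⁻¹ := by positivity
  by_contra hneg
  have h7 : (inner ℂ z (h z) : ℂ).re ≤ 0 := not_lt.mp hneg
  have h8 : (‖z‖ ^ 2)⁻¹ * (inner ℂ z (h z) : ℂ).re ≤ 0 := mul_nonpos_of_nonneg_of_nonpos h6.le h7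
  linarith

theorem PSC (hPP2 : PP2_stmt) : PSC_stmt := by
  intro n A p hV hl hp
  obtain ⟨h1, h2, h3, -⟩ := hPP2 n p hV
  refine ⟨h1.mono (subset_univ _), h2, ?_, PSC_pos h1 h2 hp⟩
  ext z : 1
  rw [h3, hl]

end Pool.Agent.helper64.QF
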